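import Pool.Agent.H1.QcB

open MeasureTheory InnerProductSpace Laplacian
open scoped ContDiff

/-- For every `m ≥ 3` a solution of `(-Δ)^m u = V e^(2mu)` on `ℝ^(2m)` with bounded `V` and
integrable `e^(2mu)` that is not essentially bounded above. -/
theorem Pool.Agent.Results.MP_885c89_an.Disproof.result (m : ℕ) (hm : 3 ≤ m) :
    ∃ u V : EuclideanSpace ℝ (Fin (2 * m)) → ℝ,
      ContDiff ℝ ∞ u ∧ Continuous V ∧ (∃ C : ℝ, ∀ x, |V x| ≤ C) ∧
      (∀ x, (fun f : EuclideanSpace ℝ (Fin (2 * m)) → ℝ => -Δ f)^[m] u x =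
        V x * Real.exp (2 * m * u x)) ∧
      (∀ φ : EuclideanSpace ℝ (Fin (2 * m)) → ℝ, ContDiff ℝ ∞ φ → HasCompactSupport φ →
        ∫ x, u x * (fun f : EuclideanSpace ℝ (Fin (2 * m)) → ℝ => -Δ f)^[m] φ x =
          ∫ x, V x * Real.exp (2 * m * u x) * φ x) ∧
      Integrable (fun x => Real.exp (2 * m * u x)) ∧
      ∀ M : ℝ, 0 < volume {x | M < u x} := by
  obtain ⟨k, rfl⟩ : ∃ k, m = k + 3 := ⟨m - 3, by omega⟩
  open Pool.Agent.H1.Qc in
  have key : ∀ (i0 : Fin (2 * (k + 3))) (a c : ℝ), ∃ V : E (2 * (k + 3)) → ℝ, Continuous V ∧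
      (∃ C : ℝ, ∀ x, |V x| ≤ C) ∧ ∀ x, L^[k + 3] (u i0 a) x = V x * Real.exp (c * u i0 a x) := by
    intro i0 a c
    have h1 := (Lk_smooth (u_smooth i0 a) (k + 3)).continuous
    have h2 := (u_smooth i0 a).continuous
    have h3 : Continuous fun x => L^[k + 3] (u i0 a) x * Real.exp (-(c * u i0 a x)) := by fun_prop
    refine ⟨_, h3, ?_, fun x => ?_⟩
    · refine h3.bounded_above_of_compact_support
        (HasCompactSupport.intro (isCompact_closedBall 0 1) fun x hx => ?_)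
      rw [Lu_zero k i0 a x (by simpa using hx), zero_mul]
    · rw [mul_assoc, ← Real.exp_add]; simp
  open Pool.Agent.H1.Qc in
  obtain ⟨V, h1, h2, h3⟩ := key ⟨0, by omega⟩ ((2 * (k + 3) : ℕ) : ℝ)⁻¹ (2 * (k + 3 : ℕ))
  open Pool.Agent.H1.Qc in
  refine ⟨_, V, u_smooth _ _, h1, h2, h3, fun φ hφ hK => ?_, ?_, unbdd _ (by positivity)⟩
  · simp only [← h3]
    exact Pool.Agent.H1.Qc.green_k _ (Pool.Agent.H1.Qc.u_smooth _ _) hφ hK
  · have := Pool.Agent.H1.Qc.exp_int (n := 2 * (k + 3)) ⟨0, by omega⟩ (by omega)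
    rwa [Nat.cast_mul, Nat.cast_ofNat] at this ⊢
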